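import Pool.Agent.H11.VP.CompactOpen

/-!
# Products with a group having a compact open subgroup (MP_cc0abd_lc)

Let `G` be any Polish group satisfying the Topological Vaught Conjecture and let `L` be a Polish group
with a compact open subgroup `M`, for instance any totally disconnected locally compact Polish
group (van Dantzig) or any compact Polish group. Then `G × L` satisfies the Topological Vaught
Conjecture.

Outline of the proof. Compact kernel: for a Polish space `X` with an action of `G × M` the orbit
space `X / M` is Polish, since `x ↦ M • x` embeds it onto a closed set of the space of nonempty
compact subsets of `X`; a Borel invariant set of `X` is the preimage of a Borel invariant set of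
`X / M`; and a perfect set of points of `X / M` in different orbits of `G` lifts to one of `X`, because
a continuous map with uncountable image on a Polish space is injective on a copy of the Cantor
space. Open subgroup: a perfect set of points in different orbits of the open subgroup is thinned
out along countably many representatives, by Lusin separation and a theorem of Mycielski.
-/

namespace Pool.Agent.Results.MP_cc0abd_lc.CompactOpenFactor

open Pool.Agent.H11.VP

/-- If the Polish group `G` satisfies the Topological Vaught Conjecture and the Polish group `L`
has a compact open subgroup, then `G × L` satisfies the Topological Vaught Conjecture. -/
theorem result (G : Type) [Group G] [TopologicalSpace G] [IsTopologicalGroup G] [PolishSpace G]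
    (L : Type) [Group L] [TopologicalSpace L] [IsTopologicalGroup L] [PolishSpace L]
    (M : Subgroup L) (hM : IsOpen (M : Set L)) (hMc : IsCompact (M : Set L)) (hG : TVC G) :
    TVC (G × L) :=
  tvc_prod_of_compactOpen G L M hM hMc hG

end Pool.Agent.Results.MP_cc0abd_lc.CompactOpenFactor
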