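import Pool.Agent.H11.VP.LMain

/-!
# Products of a non-archimedean Polish group with a locally compact group (MP_cc0abd_lc)

Let `G` be a non-archimedean Polish group satisfying the Topological Vaught Conjecture and let `L`
be a Polish group with an open subgroup having a compact normal subgroup whose quotient is a Lie
group (near the identity). By the theorem of Gleason and Yamabe these are all locally compact Polish
groups. Then `G × L` satisfies the Topological Vaught Conjecture.

Outline of the proof for a group `L` which is a Lie group near the identity. Let `X` be a Polish
`G × L`-space, `V n` a countable basis at `1` of open subgroups of `G`, `U m` a basis of `X`, and
`r i` representatives of the cosets of `V n`. The averages `h x` over `s` in `L`, against small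
bump functions on `L`, of the indicator function of `s • r i • x ∈ V n • U m` are Borel functions
on `X`; countably many of them separate the points of `X`, they are permuted by `G`, and
`h (l • x)` is continuously differentiable in `l`. The points `x` at which a tuple of these
functions has rational values and independent differentials along the orbit, the length of the
tuple being the maximal rank on the orbit, form a Borel `G`-invariant set meeting every orbit of
`G × L` in a nonempty countable family of orbits of `G`: near such a point all the functions are
constant on the fibres of the tuple, so that the values of the tuple determine the point. The
points in this set of the orbit of `x` under `L` are enumerated by countably many Borel functions of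
`x`. A perfect set of points in different orbits of `G` is then thinned out to a perfect set of
points in different orbits of `G × L`: by Lusin separation the equivalence is contained in the
union of the graphs of countably many Borel functions on the Cantor space, which become continuous
in a finer Polish topology, and a theorem of Mycielski applies. Open subgroups are treated with
the same thinning argument. For a compact normal subgroup one passes to its orbit space, which is
Polish, as it embeds onto a closed set of compact sets.
-/

namespace Pool.Agent.Results.MP_cc0abd_lc.LocallyCompactFactor

open Pool.Agent.H11.VP

/-- If the non-archimedean Polish group `G` satisfies the Topological Vaught Conjecture and some
open subgroup of the Polish group `L` is an extension of a Lie group by a compact group, then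
`G × L` satisfies the Topological Vaught Conjecture. -/
theorem result (G : Type) [Group G] [TopologicalSpace G] [NonarchimedeanGroup G] [PolishSpace G]
    (L : Type) [Group L] [TopologicalSpace L] [IsTopologicalGroup L] [PolishSpace L]
    (hL : OpenCompactByLie L) (hG : TVC G) : TVC (G × L) :=
  main_lie G L hL hG

end Pool.Agent.Results.MP_cc0abd_lc.LocallyCompactFactor
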